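import Mathlib
import Pool.Agent.H14.QDiff

set_option autoImplicit false

namespace Pool.Agent.Results.MP_12a8d1_co.IdentityOne

open Finset Pool.Agent.H14.QDiff

/-- `ℂ[[u,v]]` with `u = X 0`, `v = X 1`. -/
abbrev S := MvPowerSeries (Fin 2) ℂ

/-- the expansion of `p = p₀ + u` -/
noncomputable def P (p₀ : ℂ) : S := MvPowerSeries.C p₀ + MvPowerSeries.X 0
/-- the expansion of `q = q₀ + v` -/
noncomputable def Q (q₀ : ℂ) : S := MvPowerSeries.C q₀ + MvPowerSeries.X 1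

/-- the expansion of `(1/p;1/q)_n` -/
noncomputable def lhs (p₀ q₀ : ℂ) (n : ℕ) : S := poch (P p₀)⁻¹ (Q q₀)⁻¹ n
/-- the expansion of `(p/q)^{n+1} (1/q;1/q)_n` -/
noncomputable def rhs (p₀ q₀ : ℂ) (n : ℕ) : S :=
  (P p₀ * (Q q₀)⁻¹) ^ (n + 1) * poch (Q q₀)⁻¹ (Q q₀)⁻¹ n

/-- each monomial has a nonzero coefficient in only finitely many summands -/
def Converges (f : ℕ → S) : Prop :=
  ∀ m : Fin 2 →₀ ℕ, {n | MvPowerSeries.coeff m (f n) ≠ 0}.Finite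

/-- the coefficientwise sum -/
noncomputable def value (f : ℕ → S) : S := fun m => ∑ᶠ n, MvPowerSeries.coeff m (f n)

lemma exists_bound (f : ℕ → S) (hf : Converges f) (m : Fin 2 →₀ ℕ) :
    ∃ N₀, ∀ n ≥ N₀, ∀ i ∈ antidiagonal m, MvPowerSeries.coeff i.1 (f n) = 0 := by
  have : (⋃ i ∈ (antidiagonal m : Finset _), {n | MvPowerSeries.coeff i.1 (f n) ≠ 0}).Finite :=
    Set.Finite.biUnion (Finset.finite_toSet _) fun i _ => hf i.1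
  obtain ⟨B, hB⟩ := this.bddAbove
  refine ⟨B + 1, fun n hn i hi => ?_⟩
  by_contra hne
  have : n ≤ B := hB (Set.mem_biUnion (Finset.mem_coe.2 hi) hne)
  omega

lemma value_eq (f : ℕ → S) (m : Fin 2 →₀ ℕ) (N : ℕ)
    (h : ∀ n ≥ N, ∀ i ∈ antidiagonal m, MvPowerSeries.coeff i.1 (f n) = 0) :
    MvPowerSeries.coeff m (value f) = MvPowerSeries.coeff m (∑ n ∈ range N, f n) := by
  rw [map_sum]
  show ∑ᶠ n, MvPowerSeries.coeff m (f n) = _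
  apply finsum_eq_sum_of_support_subset
  intro n hn
  by_contra hc
  simp only [coe_range, Set.mem_Iio, not_lt] at hc
  exact hn (h n hc (m, 0) (by simp))

lemma coeff_mul_zero (f g : S) (m : Fin 2 →₀ ℕ)
    (h : ∀ i ∈ antidiagonal m, MvPowerSeries.coeff i.1 f = 0) :
    MvPowerSeries.coeff m (f * g) = 0 := by
  rw [MvPowerSeries.coeff_mul]
  exact sum_eq_zero fun i hi => by rw [h i hi, zero_mul]

theorem result (k : ℕ) (hk : 1 ≤ k) (p₀ q₀ : ℂ) (hp : p₀ ^ k = 1) (hq : q₀ ^ k = 1)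
    (h₁ : Converges (lhs p₀ q₀)) (h₂ : Converges (rhs p₀ q₀)) :
    value (lhs p₀ q₀) = value (rhs p₀ q₀) := by
  have hp0 : p₀ ≠ 0 := by rintro rfl; rw [zero_pow (by omega)] at hp; exact zero_ne_one hp
  have hq0 : q₀ ≠ 0 := by rintro rfl; rw [zero_pow (by omega)] at hq; exact zero_ne_one hq
  have eP : P p₀ * (P p₀)⁻¹ = 1 := MvPowerSeries.mul_inv_cancel _ (by simpa [P] using hp0)
  have eQ : Q q₀ * (Q q₀)⁻¹ = 1 := MvPowerSeries.mul_inv_cancel _ (by simpa [Q] using hq0)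
  ext m
  obtain ⟨N₁, hN₁⟩ := exists_bound _ h₁ m
  obtain ⟨N₂, hN₂⟩ := exists_bound _ h₂ m
  set N := max N₁ N₂
  have a₁ : ∀ n ≥ N, ∀ i ∈ antidiagonal m, MvPowerSeries.coeff i.1 (lhs p₀ q₀ n) = 0 :=
    fun n hn => hN₁ n (le_trans (le_max_left _ _) hn)
  have a₂ : ∀ n ≥ N, ∀ i ∈ antidiagonal m, MvPowerSeries.coeff i.1 (rhs p₀ q₀ n) = 0 :=
    fun n hn => hN₂ n (le_trans (le_max_right _ _) hn)
  rw [value_eq _ m N a₁, value_eq _ m N a₂]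
  obtain ⟨W, hW⟩ := RR_iter (Q q₀) (Q q₀)⁻¹ (P p₀) (P p₀)⁻¹ eQ eP N N
  have hc : poch (Q q₀)⁻¹ (Q q₀)⁻¹ N = rhs p₀ q₀ N * ((P p₀)⁻¹ * Q q₀) ^ (N + 1) := by
    have : (P p₀ * (Q q₀)⁻¹) ^ (N + 1) * ((P p₀)⁻¹ * Q q₀) ^ (N + 1) = 1 := by
      rw [← mul_pow, show P p₀ * (Q q₀)⁻¹ * ((P p₀)⁻¹ * Q q₀)
        = (P p₀ * (P p₀)⁻¹) * (Q q₀ * (Q q₀)⁻¹) by ring, eP, eQ]; simp
    unfold rhs
    linear_combination (-poch (Q q₀)⁻¹ (Q q₀)⁻¹ N) * this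
  have hR : ∑ n ∈ range N, rhs p₀ q₀ n = RR (Q q₀)⁻¹ (P p₀) N := rfl
  rw [hR, hW, hc, mul_assoc, map_add, map_add, coeff_mul_zero _ _ m (a₂ N le_rfl)]
  have := coeff_mul_zero _ (RR (Q q₀)⁻¹ (Q q₀ ^ N * P p₀) N) m (a₁ N le_rfl)
  unfold lhs at this ⊢
  rw [this]; simp

end Pool.Agent.Results.MP_12a8d1_co.IdentityOne
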