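import Mathlib
import Pool.Agent.H14.QDiff

set_option autoImplicit false

namespace Pool.Agent.Results.MP_12a8d1_co.IdentityTwo

open Finset Pool.Agent.H14.QDiff

/-- `ℂ[p][[v]]` -/
abbrev S := PowerSeries (Polynomial ℂ)

/-- the indeterminate `p` -/
noncomputable def P : S := PowerSeries.C Polynomial.X
/-- the expansion of `q = q₀ + v` -/
noncomputable def Q (q₀ : ℂ) : S := PowerSeries.C (Polynomial.C q₀) + PowerSeries.X
/-- the expansion of `1/q` (the inverse of the unit `q₀ + v`) -/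
noncomputable def Qinv (q₀ : ℂ) : S := Ring.inverse (Q q₀)

/-- the expansion of `p q^n (p;q)_n (q;q)_n` -/
noncomputable def lhs (q₀ : ℂ) (n : ℕ) : S :=
  P * Q q₀ ^ n * poch P (Q q₀) n * poch (Q q₀) (Q q₀) n
/-- the expansion of `(p/q)^{n+1} (1/q;1/q)_n` -/
noncomputable def rhs (q₀ : ℂ) (n : ℕ) : S :=
  (P * Qinv q₀) ^ (n + 1) * poch (Qinv q₀) (Qinv q₀) n

/-- each power of `v` has a nonzero coefficient in only finitely many summands -/
def Converges (f : ℕ → S) : Prop := ∀ b : ℕ, {n | PowerSeries.coeff b (f n) ≠ 0}.Finite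

/-- the coefficientwise sum -/
noncomputable def value (f : ℕ → S) : S :=
  PowerSeries.mk fun b => ∑ᶠ n, PowerSeries.coeff b (f n)

lemma conv (f : ℕ → S) (k : ℕ)
    (h : ∀ j n, j * k ≤ n → (PowerSeries.X : S) ^ j ∣ f n) : Converges f := by
  intro b
  refine (Set.finite_Iio ((b + 1) * k)).subset fun n hn => ?_
  by_contra hc
  exact hn (PowerSeries.X_pow_dvd_iff.1 (h (b + 1) n (not_lt.1 hc)) b (by omega))

lemma value_eq (f : ℕ → S) (k : ℕ)
    (h : ∀ j n, j * k ≤ n → (PowerSeries.X : S) ^ j ∣ f n) (b : ℕ) :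
    PowerSeries.coeff b (value f) = PowerSeries.coeff b (∑ n ∈ range ((b + 1) * k), f n) := by
  rw [map_sum, value, PowerSeries.coeff_mk]
  apply finsum_eq_sum_of_support_subset
  intro n hn
  by_contra hc
  simp only [coe_range, Set.mem_Iio, not_lt] at hc
  exact hn (PowerSeries.X_pow_dvd_iff.1 (h (b + 1) n hc) b (by omega))

theorem result (k : ℕ) (hk : 1 ≤ k) (q₀ : ℂ) (hq : q₀ ^ k = 1) :
    Q q₀ * Qinv q₀ = 1 ∧ Converges (lhs q₀) ∧ Converges (rhs q₀) ∧
      value (lhs q₀) = value (rhs q₀) := by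
  have hq0 : q₀ ≠ 0 := by rintro rfl; rw [zero_pow (by omega)] at hq; exact zero_ne_one hq
  have hu : IsUnit (Q q₀) := by
    rw [PowerSeries.isUnit_iff_constantCoeff]
    simpa [Q, Polynomial.isUnit_C] using hq0
  have eQ : Q q₀ * Qinv q₀ = 1 := Ring.mul_inverse_cancel _ hu
  have c1 : (PowerSeries.constantCoeff (Q q₀)) ^ k = 1 := by
    simp [Q, ← Polynomial.C_pow, hq]
  have c2 : (PowerSeries.constantCoeff (Qinv q₀)) ^ k = 1 := by
    have := congrArg (fun f => (PowerSeries.constantCoeff f) ^ k) eQ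
    simpa [mul_pow, c1] using this
  have d1 : ∀ j n, j * k ≤ n → (PowerSeries.X : S) ^ j ∣ poch (Q q₀) (Q q₀) n :=
    fun j n h => (X_pow_dvd_poch _ k hk c1 j).trans (poch_dvd _ _ h)
  have d2 : ∀ j n, j * k ≤ n → (PowerSeries.X : S) ^ j ∣ poch (Qinv q₀) (Qinv q₀) n :=
    fun j n h => (X_pow_dvd_poch _ k hk c2 j).trans (poch_dvd _ _ h)
  have l1 : ∀ j n, j * k ≤ n → (PowerSeries.X : S) ^ j ∣ lhs q₀ n :=
    fun j n h => (d1 j n h).mul_left _
  have l2 : ∀ j n, j * k ≤ n → (PowerSeries.X : S) ^ j ∣ rhs q₀ n :=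
    fun j n h => (d2 j n h).mul_left _
  refine ⟨eQ, conv _ k l1, conv _ k l2, ?_⟩
  ext1 b
  rw [value_eq _ k l1, value_eq _ k l2]
  set N := (b + 1) * k
  let I : Ideal S := Ideal.span {PowerSeries.X ^ (b + 1)}
  let π := Ideal.Quotient.mk I
  have z : ∀ f : S, PowerSeries.X ^ (b + 1) ∣ f → π f = 0 := fun f hf =>
    Ideal.Quotient.eq_zero_iff_mem.2 (Ideal.mem_span_singleton.2 hf)
  have key := LL_eq_RR (π (Q q₀)) (π (Qinv q₀)) (by rw [← map_mul, eQ, map_one]) N
    (by rw [← map_poch]; exact z _ (d1 _ _ le_rfl))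
    (by rw [← map_poch]; exact z _ (d2 _ _ le_rfl)) (π P)
  rw [← map_LL, ← map_RR, Ideal.Quotient.eq, Ideal.mem_span_singleton] at key
  have := PowerSeries.X_pow_dvd_iff.1 key b (by omega)
  rw [map_sub, sub_eq_zero] at this
  exact this

end Pool.Agent.Results.MP_12a8d1_co.IdentityTwo
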